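import Pool.Agent.Helper882.Greatest

set_option autoImplicit false

open MeasureTheory Set Topology Filter
open scoped NNReal ENNReal
open Pool.Agent.Helper882.UniformAlgebra

namespace Pool.Agent.Results.MP_a6f573_an.NoGreatest

/-- There are a compact space `S`, an algebra `A` satisfying the standing hypotheses and an
extremal measure `μ` such that `E(μ)` contains no element which is greatest in `E(μ)` for the
log-modulus order. -/
theorem result :
    ∃ (S : Type) (_ : TopologicalSpace S) (_ : CompactSpace S) (_ : T2Space S)
      (_ : MeasurableSpace S) (_ : BorelSpace S) (A : Subalgebra ℂ C(S, ℂ)) (μ : FiniteMeasure S),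
      Admissible A ∧ (μ : Measure S).Regular ∧ Extremal A μ ∧
      ¬ ∃ σ ∈ EE A μ, ∀ ν ∈ EE A μ, LogLe A ν σ := by
  refine ⟨PolyDisc Bool, inferInstance, inferInstance, inferInstance, inferInstance, inferInstance,
    polyAlg Bool, fam 0, polyAlg_admissible Bool, regular_all _, extremal_fam, ?_⟩
  rintro ⟨σ, hσ, hσ'⟩
  exact no_greatest σ (EE_sub hσ) (hσ' _ (self_mem_EE _ _ (regular_all _)))
    (hσ' _ fam_one_mem)

end Pool.Agent.Results.MP_a6f573_an.NoGreatest
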